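import Pool.Agent.Q110.RK.Stm

/-!
Lemma job FAC of project RK (helper110), proved by helper130: alternating matrices of rank at most
`2 m + 1` over `ZMod 2` come from the symplectic form `om` on `Vec m`.
-/

set_option autoImplicit false

namespace Pool.Agent.Q130.RK

open Pool.Agent.Q110.RK Module

variable {V : Type} [Fintype V] [DecidableEq V]

/-- The reduced matrix. -/
def red (A : Matrix V V (ZMod 2)) (x₀ y₀ : V) : Matrix V V (ZMod 2) :=
  Matrix.of fun x y => A x y + A x x₀ * A y y₀ + A x y₀ * A y x₀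

lemma red_apply (A : Matrix V V (ZMod 2)) (x₀ y₀ x y : V) :
    red A x₀ y₀ x y = A x y + A x x₀ * A y y₀ + A x y₀ * A y x₀ := rfl

lemma add_self_two (a : ZMod 2) : a + a = 0 := by
  rw [← two_mul, two_zero, zero_mul]

/-- The auxiliary factor. -/
def fac (A : Matrix V V (ZMod 2)) (x₀ y₀ : V) : Matrix V V (ZMod 2) :=
  Matrix.of fun z y => (if z = y then 1 else 0) + (if z = x₀ then A y y₀ else 0) +
    (if z = y₀ then A y x₀ else 0)

lemma red_eq (A : Matrix V V (ZMod 2)) (x₀ y₀ : V) : red A x₀ y₀ = A * fac A x₀ y₀ := by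
  ext x y
  rw [Matrix.mul_apply, red_apply]
  simp only [fac, Matrix.of_apply, mul_add, Finset.sum_add_distrib, mul_ite, mul_one, mul_zero,
    Finset.sum_ite_eq', Finset.mem_univ, if_true]

/-- The evaluation at two points. -/
def ev2 (x₀ y₀ : V) : (V → ZMod 2) →ₗ[ZMod 2] (ZMod 2 × ZMod 2) :=
  (LinearMap.proj x₀).prod (LinearMap.proj y₀)

lemma rank_drop (A : Matrix V V (ZMod 2)) (hs : ∀ x y, A x y = A y x) (hd : ∀ x, A x x = 0)
    (x₀ y₀ : V) (h1 : A x₀ y₀ = 1) : (red A x₀ y₀).rank + 2 ≤ A.rank := by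
  have h1' : A y₀ x₀ = 1 := by rw [hs]; exact h1
  have hrow1 : ∀ y, red A x₀ y₀ x₀ y = 0 := by
    intro y
    rw [red_apply, hd, h1, zero_mul, add_zero, one_mul, hs y x₀]
    exact add_self_two _
  have hrow2 : ∀ y, red A x₀ y₀ y₀ y = 0 := by
    intro y
    rw [red_apply, hd, h1', zero_mul, add_zero, one_mul, hs y y₀]
    exact add_self_two _
  let W := LinearMap.range A.mulVecLin
  let g : W →ₗ[ZMod 2] (ZMod 2 × ZMod 2) := (ev2 x₀ y₀).comp W.subtype
  have hsurj : LinearMap.range g = ⊤ := by
    rw [LinearMap.range_eq_top]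
    rintro ⟨a, b⟩
    refine ⟨⟨A.mulVecLin (Pi.single x₀ b + Pi.single y₀ a), LinearMap.mem_range_self _ _⟩, ?_⟩
    simp only [g, LinearMap.comp_apply, Submodule.subtype_apply, ev2, LinearMap.prod_apply,
      Pi.prod, LinearMap.proj_apply, map_add, Matrix.mulVecLin_apply, Pi.add_apply,
      Matrix.mulVec_single]
    simp [hd, h1, h1', Matrix.col]
  have hfr : finrank (ZMod 2) (LinearMap.range g) = 2 := by
    rw [hsurj, finrank_top, Module.finrank_prod, finrank_self]
  have hrn := LinearMap.finrank_range_add_finrank_ker g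
  have hle : LinearMap.range (red A x₀ y₀).mulVecLin ≤ (LinearMap.ker g).map W.subtype := by
    rintro _ ⟨u, rfl⟩
    have hmem : (red A x₀ y₀).mulVecLin u ∈ W := by
      rw [red_eq, Matrix.mulVecLin_mul]
      exact LinearMap.mem_range_self _ _
    refine ⟨⟨_, hmem⟩, ?_, rfl⟩
    have e1 : (red A x₀ y₀).mulVec u x₀ = 0 := by simp [Matrix.mulVec, dotProduct, hrow1]
    have e2 : (red A x₀ y₀).mulVec u y₀ = 0 := by simp [Matrix.mulVec, dotProduct, hrow2]
    show ((red A x₀ y₀).mulVec u x₀, (red A x₀ y₀).mulVec u y₀) = 0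
    rw [e1, e2]
    rfl
  have h2 : (red A x₀ y₀).rank ≤ finrank (ZMod 2) (LinearMap.ker g) := by
    calc (red A x₀ y₀).rank = finrank (ZMod 2) (LinearMap.range (red A x₀ y₀).mulVecLin) := rfl
      _ ≤ finrank (ZMod 2) ((LinearMap.ker g).map W.subtype) := Submodule.finrank_mono hle
      _ ≤ finrank (ZMod 2) (LinearMap.ker g) := Submodule.finrank_map_le _ _
  have h3 : A.rank = finrank (ZMod 2) W := rfl
  rw [h3, ← hrn, hfr]
  omega

theorem factor : S_factor := by
  intro V _ _ m
  induction m with
  | zero =>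
    intro A hs hd hr
    by_cases h0 : A = 0
    · exact ⟨0, fun x y => by simp [h0, om]⟩
    · exfalso
      have : ∃ x₀ y₀, A x₀ y₀ ≠ 0 := by
        by_contra hcon
        push Not at hcon
        exact h0 (by ext x y; exact hcon x y)
      obtain ⟨x₀, y₀, h1⟩ := this
      have h1' : A x₀ y₀ = 1 := by
        generalize A x₀ y₀ = a at h1
        revert h1
        revert a
        decide
      have := rank_drop A hs hd x₀ y₀ h1'
      omega
  | succ m ih =>
    intro A hs hd hr
    by_cases h0 : A = 0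
    · exact ⟨0, fun x y => by simp [h0, om]⟩
    · have : ∃ x₀ y₀, A x₀ y₀ ≠ 0 := by
        by_contra hcon
        push Not at hcon
        exact h0 (by ext x y; exact hcon x y)
      obtain ⟨x₀, y₀, h1⟩ := this
      have h1' : A x₀ y₀ = 1 := by
        generalize A x₀ y₀ = a at h1
        revert h1
        revert a
        decide
      have hrk := rank_drop A hs hd x₀ y₀ h1'
      obtain ⟨φ, hφ⟩ := ih (red A x₀ y₀) (by
          intro x y
          rw [red_apply, red_apply, hs x y]
          ring) (by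
          intro x
          rw [red_apply, hd, zero_add, mul_comm (A x y₀)]
          exact add_self_two _) (by omega)
      refine ⟨fun x => Fin.cons (A x x₀, A x y₀) (φ x), fun x y => ?_⟩
      unfold om
      rw [Fin.sum_univ_succ]
      simp only [Fin.cons_zero, Fin.cons_succ]
      have := hφ x y
      unfold om at this
      rw [← this, red_apply]
      have e := add_self_two (A x x₀ * A y y₀)
      have e' := add_self_two (A x y₀ * A y x₀)
      linear_combination (-1 : ZMod 2) * e - e'

end Pool.Agent.Q130.RK
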